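import Mathlib

/-!
# Extremal populations for sums of sampled errors: two error sizes do not suffice

For `n = 2` draws, mean error `m = 0.905` and threshold `c = 0.9 < n m`, the population with one
item of error size `0`, nine items of error size `0.9` and ten items of error size `1` satisfies
`P(S ≤ c) = 19/400 = 0.0475`, while every population with mean error `m`, exactly two error sizes
and one of them `0` or `1`, has `P(S ≤ c) ≤ 0.03`.
-/

set_option autoImplicit false

namespace Pool.Agent.Results.MP_c8004b_pr.ThreeSizesBeatTwo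

open Finset

/-- `e : Fin N → ℝ` is a population of `N ≥ 1` items with error sizes in `[0, 1]` and mean error
`m`; the set of all these populations, over all `N`, is the set `𝓔_m` of the problem. -/
def IsPopulation (m : ℝ) (N : ℕ) (e : Fin N → ℝ) : Prop :=
  1 ≤ N ∧ (∀ i, 0 ≤ e i ∧ e i ≤ 1) ∧ (∑ i, e i) / N = m

/-- `F n N e c` is the probability that the sum of the error sizes of `n` items, drawn
independently and uniformly from the population `e` with replacement, is at most `c`. -/
noncomputable def F (n N : ℕ) (e : Fin N → ℝ) (c : ℝ) : ℝ :=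
  ((univ.filter fun i : Fin n → Fin N => ∑ k, e (i k) ≤ c).card : ℝ) / (N : ℝ) ^ n

/-- The population has exactly two error sizes and one of them is `0` or `1`. -/
def TwoSizes (N : ℕ) (e : Fin N → ℝ) : Prop :=
  (Set.range e).ncard = 2 ∧ ((0 : ℝ) ∈ Set.range e ∨ (1 : ℝ) ∈ Set.range e)

/-- The population with one item of size `0`, nine of size `9/10`, ten of size `1`. -/
noncomputable def e0 (i : Fin 20) : ℝ := if i.val < 1 then 0 else if i.val < 10 then 9 / 10 else 1

theorem e0_pop : IsPopulation (181 / 200) 20 e0 := by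
  refine ⟨by norm_num, fun i => ?_, ?_⟩
  · unfold e0
    split_ifs <;> norm_num
  · have : ∑ i, e0 i = 181 / 10 := by
      have h := Fin.sum_univ_eq_sum_range
        (fun i => if i < 1 then (0 : ℝ) else if i < 10 then 9 / 10 else 1) 20
      have h' : ∑ i, e0 i = ∑ i : Fin 20, (fun i : ℕ => if i < 1 then (0 : ℝ) else
        if i < 10 then 9 / 10 else 1) i := rfl
      rw [h', h]
      norm_num [Finset.sum_range_succ]
    rw [this]
    norm_num

theorem pair_iff (i : Fin 2 → Fin 20) :
    ∑ k, e0 (i k) ≤ 9 / 10 ↔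
      ((i 0).val = 0 ∧ (i 1).val < 10) ∨ ((i 0).val < 10 ∧ (i 1).val = 0) := by
  rw [Fin.sum_univ_two]
  unfold e0
  split_ifs with h1 h2 h3 h4 h5 h6 h7 <;> norm_num <;> omega

theorem F_e0 : F 2 20 e0 (9 / 10) = 19 / 400 := by
  have h : (univ.filter fun i : Fin 2 → Fin 20 => ∑ k, e0 (i k) ≤ 9 / 10) =
      univ.filter fun i : Fin 2 → Fin 20 =>
        ((i 0).val = 0 ∧ (i 1).val < 10) ∨ ((i 0).val < 10 ∧ (i 1).val = 0) := by
    ext i
    simp only [mem_filter, mem_univ, true_and]
    exact pair_iff i
  have h2 : (univ.filter fun i : Fin 2 → Fin 20 =>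
        ((i 0).val = 0 ∧ (i 1).val < 10) ∨ ((i 0).val < 10 ∧ (i 1).val = 0)).card = 19 := by
    decide +kernel
  unfold F
  rw [h, h2]
  norm_num

/-- A set of pairs contained in a square. -/
theorem card_le_sq {N : ℕ} (e : Fin N → ℝ) (c : ℝ) (S : Finset (Fin N))
    (h : ∀ i j, e i + e j ≤ c → i ∈ S ∧ j ∈ S) :
    (univ.filter fun i : Fin 2 → Fin N => ∑ k, e (i k) ≤ c).card ≤ S.card ^ 2 := by
  have hsub : (univ.filter fun i : Fin 2 → Fin N => ∑ k, e (i k) ≤ c) ⊆
      Fintype.piFinset fun _ : Fin 2 => S := by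
    intro i hi
    simp only [mem_filter, mem_univ, true_and, Fin.sum_univ_two] at hi
    rw [Fintype.mem_piFinset]
    intro k
    fin_cases k
    · exact (h _ _ hi).1
    · exact (h _ _ hi).2
  refine (card_le_card hsub).trans ?_
  rw [Fintype.card_piFinset]
  simp [sq]

theorem F_le {N : ℕ} (e : Fin N → ℝ) (hN : 1 ≤ N) (c : ℝ) (S : Finset (Fin N))
    (h : ∀ i j, e i + e j ≤ c → i ∈ S ∧ j ∈ S) (hS : (S.card : ℝ) ≤ 19 / 110 * N) :
    F 2 N e c ≤ 3 / 100 := by
  have h1 : ((univ.filter fun i : Fin 2 → Fin N => ∑ k, e (i k) ≤ c).card : ℝ) ≤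
      (S.card : ℝ) ^ 2 := by exact_mod_cast card_le_sq e c S h
  have hN0 : (0 : ℝ) < N := by exact_mod_cast (by omega : 0 < N)
  unfold F
  rw [div_le_iff₀ (by positivity)]
  have h2 : (S.card : ℝ) ^ 2 ≤ (19 / 110 * N) ^ 2 := by gcongr
  nlinarith [sq_nonneg (N : ℝ)]

/-- Every population with mean error `181/200`, two error sizes, one of them `0` or `1`, has
`P(S ≤ 9/10) ≤ 3/100` for two draws. -/
theorem two_sizes_le {N : ℕ} {e : Fin N → ℝ} (hp : IsPopulation (181 / 200) N e)
    (ht : TwoSizes N e) : F 2 N e (9 / 10) ≤ 3 / 100 := by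
  obtain ⟨hN, hb, hm⟩ := hp
  have hN0 : (0 : ℝ) < N := by exact_mod_cast (by omega : 0 < N)
  rw [div_eq_iff hN0.ne'] at hm
  obtain ⟨h2, h01⟩ := ht
  obtain ⟨a, b, hab, hr⟩ := Set.ncard_eq_two.1 h2
  have hval : ∀ i, e i = a ∨ e i = b := by
    intro i
    have : e i ∈ Set.range e := ⟨i, rfl⟩
    rw [hr] at this
    simpa using this
  -- total deficit
  have hdef : ∑ i, (1 - e i) = 19 / 200 * N := by
    rw [Finset.sum_sub_distrib, hm]
    simp
    ring
  have hdef0 : ∀ i, 0 ≤ 1 - e i := fun i => by linarith [(hb i).2]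
  -- reduce to: all sizes are `x` or `y` with `y` in `{0, 1}`
  obtain ⟨x, y, hxy, hv, hy⟩ : ∃ x y : ℝ, x ≠ y ∧ (∀ i, e i = x ∨ e i = y) ∧ (y = 0 ∨ y = 1) := by
    rcases h01 with h | h
    · rw [hr] at h
      rcases h with h | h
      · exact ⟨b, a, hab.symm, fun i => (hval i).symm, Or.inl h.symm⟩
      · exact ⟨a, b, hab, hval, Or.inl (by simpa using h.symm)⟩
    · rw [hr] at h
      rcases h with h | h
      · exact ⟨b, a, hab.symm, fun i => (hval i).symm, Or.inr h.symm⟩
      · exact ⟨a, b, hab, hval, Or.inr (by simpa using h.symm)⟩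
  rcases hy with hy | hy
  · -- one size is `0`; the other one is at least `0.905`
    subst hy
    have hx : 181 / 200 ≤ x := by
      by_contra hlt
      push Not at hlt
      have : ∑ i, e i < ∑ _i : Fin N, (181 / 200 : ℝ) := by
        have : Nonempty (Fin N) := ⟨⟨0, by omega⟩⟩
        refine Finset.sum_lt_sum_of_nonempty univ_nonempty fun i _ => ?_
        rcases hv i with h | h
        · rw [h]; exact hlt
        · rw [h]; norm_num
      rw [hm] at this
      simp at this
      linarith
    refine F_le e hN _ (univ.filter fun i => e i = 0) ?_ ?_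
    · intro i j hij
      simp only [mem_filter, mem_univ, true_and]
      constructor
      · rcases hv i with h | h
        · exfalso
          have := (hb j).1
          linarith
        · exact h
      · rcases hv j with h | h
        · exfalso
          have := (hb i).1
          linarith
        · exact h
    · have h1 : ((univ.filter fun i => e i = 0).card : ℝ) ≤ ∑ i, (1 - e i) := by
        rw [← Finset.sum_filter_add_sum_filter_not univ (fun i => e i = 0)]
        have h3 : ∑ i ∈ univ.filter (fun i => e i = 0), (1 - e i) =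
            ((univ.filter fun i => e i = 0).card : ℝ) := by
          rw [Finset.sum_congr rfl (g := fun _ => (1 : ℝ))]
          · simp
          · intro i hi
            rw [(mem_filter.1 hi).2]
            norm_num
        have h4 : 0 ≤ ∑ i ∈ univ.filter (fun i => ¬ e i = 0), (1 - e i) :=
          Finset.sum_nonneg fun i _ => hdef0 i
        linarith
      rw [hdef] at h1
      linarith
  · -- one size is `1`
    subst hy
    refine F_le e hN _ (univ.filter fun i => e i ≤ 9 / 20) ?_ ?_
    · intro i j hij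
      simp only [mem_filter, mem_univ, true_and]
      have hi0 := (hb i).1
      have hj0 := (hb j).1
      rcases hv i with h | h <;> rcases hv j with h' | h' <;> constructor <;>
        (rw [h, h'] at hij; first | (rw [h]; linarith) | (rw [h']; linarith))
    · have h1 : ((univ.filter fun i => e i ≤ 9 / 20).card : ℝ) * (11 / 20) ≤ ∑ i, (1 - e i) := by
        rw [← Finset.sum_filter_add_sum_filter_not univ (fun i => e i ≤ 9 / 20)]
        have h3 : ((univ.filter fun i => e i ≤ 9 / 20).card : ℝ) * (11 / 20) ≤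
            ∑ i ∈ univ.filter (fun i => e i ≤ 9 / 20), (1 - e i) := by
          rw [← nsmul_eq_mul]
          refine Finset.card_nsmul_le_sum _ _ _ fun i hi => ?_
          have := (mem_filter.1 hi).2
          linarith
        have h4 : 0 ≤ ∑ i ∈ univ.filter (fun i => ¬ e i ≤ 9 / 20), (1 - e i) :=
          Finset.sum_nonneg fun i _ => hdef0 i
        linarith
      rw [hdef] at h1
      linarith

/-- For `n = 2` draws, mean error `m = 181/200` and threshold `c = 9/10 < n m`, some population
`e` in `𝓔_m` satisfies `F_e(c) = 19/400`, while **every** population `e'` in `𝓔_m` that has exactly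
two error sizes, one of them `0` or `1`, satisfies `F_{e'}(c) ≤ 3/100 < 19/400`. -/
theorem result :
    (9 / 10 : ℝ) < ((2 : ℕ) : ℝ) * (181 / 200) ∧
    ∃ (N : ℕ) (e : Fin N → ℝ), IsPopulation (181 / 200) N e ∧ F 2 N e (9 / 10) = 19 / 400 ∧
      ∀ (N' : ℕ) (e' : Fin N' → ℝ), IsPopulation (181 / 200) N' e' → TwoSizes N' e' →
        F 2 N' e' (9 / 10) ≤ 3 / 100 ∧ F 2 N' e' (9 / 10) < F 2 N e (9 / 10) := by
  refine ⟨by norm_num, 20, e0, e0_pop, F_e0, fun N' e' hp ht => ?_⟩
  have h := two_sizes_le hp ht
  refine ⟨h, ?_⟩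
  rw [F_e0]
  linarith

end Pool.Agent.Results.MP_c8004b_pr.ThreeSizesBeatTwo
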